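import Mathlib
import Pool.Agent.Helper97.PF.Rew

/-!
# The Pfaffian of an alternating matrix (MP_381749_lc, sums of Pfaffians)

`pf k A` is the Pfaffian of the `2k x 2k` matrix `A`, by expansion along the first row. It only
depends on the entries above the diagonal.
-/

set_option autoImplicit false

namespace Pool.PF

open MvPolynomial

section defs
variable {R : Type*} [CommRing R]

/-- Pfaffian, expansion along the first row -/
def pf : (k : ℕ) → Matrix (Fin (2 * k)) (Fin (2 * k)) R → R
  | 0, _ => 1
  | k + 1, A => ∑ j : Fin (2 * k + 1), (-1) ^ (j : ℕ) * A 0 j.succ *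
      pf k (A.submatrix (fun i => (j.succAbove i).succ) (fun i => (j.succAbove i).succ))

/-- alternating matrices -/
def IsAlt {n : Type*} (A : Matrix n n R) : Prop := (∀ i j, A i j = - A j i) ∧ ∀ i, A i i = 0

lemma pf_zero (A : Matrix (Fin (2 * 0)) (Fin (2 * 0)) R) : pf 0 A = 1 := rfl

lemma pf_succ (k : ℕ) (A : Matrix (Fin (2 * (k + 1))) (Fin (2 * (k + 1))) R) :
    pf (k + 1) A = ∑ j : Fin (2 * k + 1), (-1) ^ (j : ℕ) * A 0 j.succ *
      pf k (A.submatrix (fun i => (j.succAbove i).succ) (fun i => (j.succAbove i).succ)) := rfl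

/-- comparison with the Pfaffian of a list -/
theorem pf_eq_pfk {ι : Type*} (a : ι → ι → R) (k : ℕ) (f : Fin (2 * k) → ι) :
    pf k (Matrix.of fun i j => a (f i) (f j)) = pfk a k (List.ofFn f) := by
  induction k with
  | zero => simp [pf_zero]
  | succ k ih =>
    have h1 : List.ofFn f = f 0 :: List.ofFn (fun i : Fin (2 * k + 1) => f i.succ) :=
      List.ofFn_succ (n := 2 * k + 1)
    rw [h1, pfk_succ_cons, se_ofFn, pf_succ]
    refine Finset.sum_congr rfl fun j _ => ?_
    rw [← ih fun s => f (j.succAbove s).succ, mul_assoc]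
    rfl

theorem pf_eq_pfk_id (k : ℕ) (A : Matrix (Fin (2 * k)) (Fin (2 * k)) R) :
    pf k A = pfk A k (List.ofFn id) := pf_eq_pfk A k id

lemma map_pf {S : Type*} [CommRing S] (φ : R →+* S) (k : ℕ)
    (A : Matrix (Fin (2 * k)) (Fin (2 * k)) R) : φ (pf k A) = pf k (A.map φ) := by
  rw [pf_eq_pfk_id, map_pfk, pf_eq_pfk_id]
  rfl

end defs

/-- only the entries above the diagonal matter -/
lemma pf_congr {R : Type*} [CommRing R] (k : ℕ) {A B : Matrix (Fin (2 * k)) (Fin (2 * k)) R}
    (h : ∀ i j, i < j → A i j = B i j) : pf k A = pf k B := by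
  induction k with
  | zero => rfl
  | succ k ih =>
    rw [pf_succ, pf_succ]
    refine Finset.sum_congr rfl fun j _ => ?_
    rw [h 0 j.succ (Fin.succ_pos j)]
    congr 1
    apply ih
    intro i i' hi
    exact h _ _ (Fin.succ_lt_succ_iff.2 ((Fin.strictMono_succAbove j) hi))

section generic
variable {K : Type*} [Field K] {S : Type*} [CommRing S] [Algebra K S]

/-- the Pfaffian of a matrix is a specialisation of the generic one -/
theorem pf_eq_aeval (k : ℕ) (A : Matrix (Fin (2 * k)) (Fin (2 * k)) S) :
    pf k A = aeval (fun c : Cell (2 * k) => A c.1.1 c.1.2)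
      (gpf K (id : Cell (2 * k) → Cell (2 * k)) k id) := by
  have h0 : pf k A = pf k (Matrix.of (gsk fun c : Cell (2 * k) => A c.1.1 c.1.2)) := by
    apply pf_congr
    intro i j hij
    rw [Matrix.of_apply]
    unfold gsk
    rw [dif_pos hij]
  have h1 : aeval (fun c : Cell (2 * k) => A c.1.1 c.1.2)
      (gpf K (id : Cell (2 * k) → Cell (2 * k)) k id) =
      pfk (fun i j => aeval (R := K) (fun c : Cell (2 * k) => A c.1.1 c.1.2)
        (gsk (fun c => (X c : MvPolynomial (Cell (2 * k)) K)) i j)) k (List.ofFn id) :=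
    map_pfk ((aeval (R := K) (fun c : Cell (2 * k) => A c.1.1 c.1.2)) :
      MvPolynomial (Cell (2 * k)) K →+* S) _ k _
  rw [h0, h1, pf_eq_pfk_id]
  congr 1
  funext i j
  rw [Matrix.of_apply]
  unfold gsk
  rcases lt_trichotomy i j with h | h | h
  · rw [dif_pos h, dif_pos h, aeval_X]
  · subst h
    simp
  · rw [dif_neg h.le.not_gt, dif_pos h, dif_neg h.le.not_gt, dif_pos h, map_neg, aeval_X]

end generic

section padding
variable {R : Type*} [CommRing R]

/-- two more rows and columns, with the block `[[0, 1], [-1, 0]]` -/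
def pad {n : ℕ} (A : Matrix (Fin n) (Fin n) R) : Matrix (Fin (n + 2)) (Fin (n + 2)) R :=
  Fin.cases (Fin.cases 0 (Fin.cases 1 fun _ => 0))
    (Fin.cases (Fin.cases (-1) (Fin.cases 0 fun _ => 0))
      fun i => Fin.cases 0 (Fin.cases 0 fun j => A i j))

section
variable {n : ℕ} (A : Matrix (Fin n) (Fin n) R) (i j : Fin n)
lemma pad_00 : pad A 0 0 = 0 := rfl
lemma pad_01 : pad A 0 (Fin.succ 0) = 1 := rfl
lemma pad_0s : pad A 0 (Fin.succ (Fin.succ j)) = 0 := rfl
lemma pad_10 : pad A (Fin.succ 0) 0 = -1 := rfl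
lemma pad_11 : pad A (Fin.succ 0) (Fin.succ 0) = 0 := rfl
lemma pad_1s : pad A (Fin.succ 0) (Fin.succ (Fin.succ j)) = 0 := rfl
lemma pad_s0 : pad A (Fin.succ (Fin.succ i)) 0 = 0 := rfl
lemma pad_s1 : pad A (Fin.succ (Fin.succ i)) (Fin.succ 0) = 0 := rfl
lemma pad_ss : pad A (Fin.succ (Fin.succ i)) (Fin.succ (Fin.succ j)) = A i j := rfl
end

lemma pad_alt {n : ℕ} {A : Matrix (Fin n) (Fin n) R} (hA : IsAlt A) : IsAlt (pad A) := by
  constructor
  · intro i j
    induction i using Fin.cases with
    | zero =>
      induction j using Fin.cases with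
      | zero => rw [pad_00, neg_zero]
      | succ j =>
        induction j using Fin.cases with
        | zero => rw [pad_01, pad_10, neg_neg]
        | succ j => rw [pad_0s, pad_s0, neg_zero]
    | succ i =>
      induction i using Fin.cases with
      | zero =>
        induction j using Fin.cases with
        | zero => rw [pad_01, pad_10]
        | succ j =>
          induction j using Fin.cases with
          | zero => rw [pad_11, neg_zero]
          | succ j => rw [pad_1s, pad_s1, neg_zero]
      | succ i =>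
        induction j using Fin.cases with
        | zero => rw [pad_0s, pad_s0, neg_zero]
        | succ j =>
          induction j using Fin.cases with
          | zero => rw [pad_1s, pad_s1, neg_zero]
          | succ j => rw [pad_ss, pad_ss]; exact hA.1 i j
  · intro i
    induction i using Fin.cases with
    | zero => exact pad_00 A
    | succ i =>
      induction i using Fin.cases with
      | zero => exact pad_11 A
      | succ i => rw [pad_ss]; exact hA.2 i

lemma pad_mem {n : ℕ} (A : Matrix (Fin n) (Fin n) R) (i j : Fin (n + 2)) :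
    pad A i j = 0 ∨ pad A i j = 1 ∨ pad A i j = -1 ∨ ∃ i' j', pad A i j = A i' j' := by
  induction i using Fin.cases with
  | zero =>
    induction j using Fin.cases with
    | zero => exact Or.inl (pad_00 A)
    | succ j =>
      induction j using Fin.cases with
      | zero => exact Or.inr (Or.inl (pad_01 A))
      | succ j => exact Or.inl (pad_0s A j)
  | succ i =>
    induction i using Fin.cases with
    | zero =>
      induction j using Fin.cases with
      | zero => exact Or.inr (Or.inr (Or.inl (pad_10 A)))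
      | succ j =>
        induction j using Fin.cases with
        | zero => exact Or.inl (pad_11 A)
        | succ j => exact Or.inl (pad_1s A j)
    | succ i =>
      induction j using Fin.cases with
      | zero => exact Or.inl (pad_s0 A i)
      | succ j =>
        induction j using Fin.cases with
        | zero => exact Or.inl (pad_s1 A i)
        | succ j => exact Or.inr (Or.inr (Or.inr ⟨i, j, pad_ss A i j⟩))

lemma pf_pad (k : ℕ) (A : Matrix (Fin (2 * k)) (Fin (2 * k)) R) :
    pf (k + 1) (pad A) = pf k A := by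
  rw [pf_succ, Fin.sum_univ_succ, Finset.sum_eq_zero, add_zero]
  · have h1 : (pad A) 0 (Fin.succ 0) = 1 := rfl
    rw [h1, Fin.val_zero, pow_zero, one_mul, one_mul]
    congr 1
  · intro j _
    have h1 : (pad A) 0 (Fin.succ (Fin.succ j)) = 0 := rfl
    rw [h1, mul_zero, zero_mul]

/-- **padding** -/
theorem exists_pad {s m : ℕ} (h : s ≤ m) (A : Matrix (Fin (2 * s)) (Fin (2 * s)) R) :
    ∃ A' : Matrix (Fin (2 * m)) (Fin (2 * m)) R, (IsAlt A → IsAlt A') ∧
      (∀ i j, A' i j = 0 ∨ A' i j = 1 ∨ A' i j = -1 ∨ ∃ i' j', A' i j = A i' j') ∧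
      pf m A' = pf s A := by
  induction m, h using Nat.le_induction with
  | base => exact ⟨A, id, fun i j => Or.inr (Or.inr (Or.inr ⟨i, j, rfl⟩)), rfl⟩
  | succ m _ ih =>
    obtain ⟨B, hB, h1, h2⟩ := ih
    refine ⟨pad B, fun hA => pad_alt (hB hA), fun i j => ?_, (pf_pad m B).trans h2⟩
    rcases pad_mem B i j with h | h | h | ⟨i', j', h⟩
    · exact Or.inl h
    · exact Or.inr (Or.inl h)
    · exact Or.inr (Or.inr (Or.inl h))
    · have := h1 i' j'
      rw [← h] at this
      exact this

/-- **the bridge**: a Pfaffian of size `2 s`, `s ≤ m`, with entries of degree at most `dl`, is the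
generic Pfaffian of size `2 m` at polynomials of degree at most `dl` -/
theorem exists_aeval {K σ : Type*} [Field K] {s m : ℕ} (h : s ≤ m) (dl : ℕ)
    (A : Matrix (Fin (2 * s)) (Fin (2 * s)) (MvPolynomial σ K))
    (hA : ∀ i j, (A i j).totalDegree ≤ dl) :
    ∃ B : Cell (2 * m) → MvPolynomial σ K, (∀ c, (B c).totalDegree ≤ dl) ∧
      pf s A = aeval B (gpf K (id : Cell (2 * m) → Cell (2 * m)) m id) := by
  obtain ⟨A', -, h2, h3⟩ := exists_pad h A
  refine ⟨fun c => A' c.1.1 c.1.2, fun c => ?_, ?_⟩
  · show (A' c.1.1 c.1.2).totalDegree ≤ dl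
    rcases h2 c.1.1 c.1.2 with h | h | h | ⟨i', j', h⟩
    · rw [h, totalDegree_zero]; exact Nat.zero_le _
    · rw [h, totalDegree_one]; exact Nat.zero_le _
    · rw [h, totalDegree_neg, totalDegree_one]; exact Nat.zero_le _
    · rw [h]; exact hA _ _
  · rw [← h3]
    exact pf_eq_aeval m A'

end padding

section det
variable {R : Type*} [CommRing R] {ι : Type*}

lemma se_append_left (F : ι → List ι → R) (l₁ l₂ : List ι) (h : ∀ z ∈ l₁, ∀ l', F z l' = 0) :
    se F (l₁ ++ l₂) = (-1) ^ l₁.length * se (fun z l' => F z (l₁ ++ l')) l₂ := by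
  induction l₁ generalizing F with
  | nil => simp
  | cons x l₁ ih =>
    rw [List.cons_append, se_cons, h x List.mem_cons_self, ih (F := fun z l' => F z (x :: l'))
      (fun z hz l' => h z (List.mem_cons_of_mem _ hz) _), List.length_cons, pow_succ]
    simp only [List.cons_append]
    ring

lemma se_append_right (F : ι → List ι → R) (l₁ l₂ : List ι) (h : ∀ z ∈ l₂, ∀ l', F z l' = 0) :
    se F (l₁ ++ l₂) = se (fun z l' => F z (l' ++ l₂)) l₁ := by
  induction l₁ generalizing F with
  | nil =>
    rw [List.nil_append, se_nil, ← se_zero l₂]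
    apply se_congr
    intro z l' hl
    exact h z (hl.mem_iff.2 List.mem_cons_self) l'
  | cons x l₁ ih =>
    rw [List.cons_append, se_cons, se_cons, ih (F := fun z l' => F z (x :: l'))
      (fun z hz l' => h z hz _)]
    rfl

/-- rows first, then the columns -/
theorem pfk_det (a : ι → ι → R) (n : ℕ) (ρ γ : Fin n → ι) (h : ∀ i i', a (ρ i) (ρ i') = 0) :
    pfk a n (List.ofFn ρ ++ List.ofFn γ) =
      (-1) ^ (n.choose 2) * Matrix.det (Matrix.of fun i j => a (ρ i) (γ j)) := by
  induction n with
  | zero => simp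
  | succ n ih =>
    rw [List.ofFn_succ (f := ρ), List.cons_append, pfk_succ_cons, se_append_left _ _ _ (by
      intro z hz l'
      obtain ⟨i, rfl⟩ := List.mem_ofFn.1 hz
      rw [h, zero_mul]), se_ofFn, Matrix.det_succ_row_zero, List.length_ofFn, Finset.mul_sum,
      Finset.mul_sum]
    refine Finset.sum_congr rfl fun j _ => ?_
    rw [ih (fun i => ρ i.succ) (fun s => γ (j.succAbove s)) (fun i i' => h _ _)]
    have h2 : (n + 1).choose 2 = n + n.choose 2 := by
      rw [Nat.choose_succ_succ' n 1, Nat.choose_one_right]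
    rw [h2, pow_add]
    have h3 : (Matrix.of fun i j => a (ρ i) (γ j)).submatrix Fin.succ j.succAbove =
        Matrix.of fun (i : Fin n) (s : Fin n) => a (ρ i.succ) (γ (j.succAbove s)) := rfl
    rw [h3, Matrix.of_apply]
    ring

/-- rows first, then the columns in reverse order: no sign -/
theorem pfk_det_rev (a : ι → ι → R) (n : ℕ) (ρ γ : Fin n → ι) (h : ∀ i i', a (ρ i) (ρ i') = 0) :
    pfk a n (List.ofFn ρ ++ List.ofFn (fun s => γ s.rev)) =
      Matrix.det (Matrix.of fun i j => a (ρ i) (γ j)) := by
  induction n with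
  | zero => simp
  | succ n ih =>
    rw [List.ofFn_succ (f := ρ), List.cons_append, pfk_succ_cons, se_append_left _ _ _ (by
      intro z hz l'
      obtain ⟨i, rfl⟩ := List.mem_ofFn.1 hz
      rw [h, zero_mul]), se_ofFn, Matrix.det_succ_row_zero, List.length_ofFn, Finset.mul_sum]
    rw [← Equiv.sum_comp Fin.revPerm]
    refine Finset.sum_congr rfl fun j _ => ?_
    have h1 : ∀ s : Fin n, ((Fin.revPerm j).succAbove s).rev = j.succAbove s.rev := by
      intro s
      rw [Fin.revPerm_apply, Fin.rev_succAbove, Fin.rev_rev]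
    have h2 : (List.ofFn fun s : Fin n => γ ((Fin.revPerm j).succAbove s).rev) =
        List.ofFn fun s : Fin n => γ (j.succAbove s.rev) := by
      congr 1
      funext s
      rw [h1]
    rw [h2, ih (fun i => ρ i.succ) (fun s => γ (j.succAbove s)) (fun i i' => h _ _)]
    have h3 : (Matrix.of fun i j => a (ρ i) (γ j)).submatrix Fin.succ j.succAbove =
        Matrix.of fun (i : Fin n) (s : Fin n) => a (ρ i.succ) (γ (j.succAbove s)) := rfl
    rw [h3, Matrix.of_apply, Fin.revPerm_apply, Fin.rev_rev]
    have h4 : ((-1 : R)) ^ n * (-1) ^ ((Fin.rev j : Fin (n + 1)) : ℕ) = (-1) ^ (j : ℕ) := by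
      rw [← pow_add, Fin.val_rev]
      have h5 : n + (n + 1 - (j + 1)) = (j : ℕ) + 2 * (n - j) := by
        have := j.2
        omega
      rw [h5, pow_add, pow_mul]
      norm_num
    rw [← h4]
    ring

end det

end Pool.PF
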