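import Mathlib
import Pool.Agent.PF.Matrix

/-!
# Determinants are Pfaffians, and the theorem of Cayley (MP_381749_lc, sums of Pfaffians)
-/

set_option autoImplicit false

namespace Pool.PF

section det
variable {R : Type*} [CommRing R]

/-- the alternating function on rows and columns given by a square matrix -/
def rc {m : ℕ} (B : Matrix (Fin m) (Fin m) R) : Fin m ⊕ Fin m → Fin m ⊕ Fin m → R
  | Sum.inl i, Sum.inr j => B i j
  | Sum.inr j, Sum.inl i => - B i j
  | _, _ => 0

/-- **determinants are Pfaffians** of twice the size, with entries `0` and `± B i j` -/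
theorem exists_pf_eq_det {m : ℕ} (B : Matrix (Fin m) (Fin m) R) :
    ∃ A : Matrix (Fin (2 * m)) (Fin (2 * m)) R, IsAlt A ∧
      (∀ i j, A i j = 0 ∨ ∃ i' j', A i j = B i' j' ∨ A i j = - B i' j') ∧ pf m A = B.det := by
  set f : Fin (2 * m) → Fin m ⊕ Fin m :=
    fun i => Fin.append (fun i => Sum.inl i) (fun s => Sum.inr (Fin.rev s)) (Fin.cast (two_mul m) i) with hf
  refine ⟨Matrix.of fun i j => rc B (f i) (f j), ⟨fun i j => ?_, fun i => ?_⟩, fun i j => ?_, ?_⟩
  · simp only [Matrix.of_apply]
    rcases f i with i | i <;> rcases f j with j | j <;> simp [rc]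
  · simp only [Matrix.of_apply]
    rcases f i with i | i <;> simp [rc]
  · simp only [Matrix.of_apply]
    rcases f i with i | i <;> rcases f j with j | j
    · left; rfl
    · right; exact ⟨i, j, Or.inl rfl⟩
    · right; exact ⟨j, i, Or.inr rfl⟩
    · left; rfl
  · rw [pf_eq_pfk]
    have h1 : List.ofFn f = List.ofFn (fun i : Fin m => (Sum.inl i : Fin m ⊕ Fin m)) ++
        List.ofFn (fun s : Fin m => (Sum.inr s.rev : Fin m ⊕ Fin m)) := by
      rw [← List.ofFn_fin_append]
      exact List.ofFn_congr (two_mul m) _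
    rw [h1, pfk_det_rev (rc B) m (fun i => Sum.inl i) (fun s => Sum.inr s) (fun i i' => rfl)]
    rfl

end det

section cayley
variable {R : Type*} [CommRing R]

lemma pfk_append {ι : Type*} (a : ι → ι → R) (k₁ k₂ : ℕ) (l₁ l₂ : List ι)
    (h : ∀ x ∈ l₁, ∀ y ∈ l₂, a x y = 0) (h1 : l₁.length = 2 * k₁) :
    pfk a (k₁ + k₂) (l₁ ++ l₂) = pfk a k₁ l₁ * pfk a k₂ l₂ := by
  induction k₁ generalizing l₁ with
  | zero =>
    have : l₁ = [] := List.length_eq_zero_iff.1 (by omega)
    subst this
    simp
  | succ k₁ ih =>
    rcases l₁ with _ | ⟨x, l⟩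
    · simp at h1
    · have e1 : k₁ + 1 + k₂ = (k₁ + k₂) + 1 := by omega
      rw [e1, List.cons_append, pfk_succ_cons, pfk_succ_cons, se_append_right _ _ _ (by
        intro z hz l'
        rw [h x List.mem_cons_self z hz, zero_mul])]
      have e2 : se (fun z l' => a x z * pfk a (k₁ + k₂) (l' ++ l₂)) l =
          se (fun z l' => pfk a k₂ l₂ * (a x z * pfk a k₁ l')) l := by
        apply se_congr
        intro z l' hl
        rw [ih l' (fun u hu y hy => h u (List.mem_cons_of_mem _
          (hl.mem_iff.2 (List.mem_cons_of_mem _ hu))) y hy) (by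
            have := hl.length_eq
            simp only [List.length_cons] at this h1
            omega)]
        ring
      rw [e2, se_mul_left]
      ring

/-- additive in every place -/
def Addv {V : Type*} [Add V] (G : List V → R) : Prop :=
  ∀ (l₁ : List V) (x y : V) (l₂ : List V),
    G (l₁ ++ (x + y) :: l₂) = G (l₁ ++ x :: l₂) + G (l₁ ++ y :: l₂)

lemma Addv.cons {V : Type*} [Add V] {G : List V → R} (h : Addv G) (x : V) :
    Addv fun l => G (x :: l) := fun l₁ y z l₂ => h (x :: l₁) y z l₂

lemma se_addv {V : Type*} [Add V] {F : V → List V → R}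
    (h1 : ∀ x y l, F (x + y) l = F x l + F y l) (h2 : ∀ z, Addv (F z)) : Addv (se F) := by
  intro l₁
  induction l₁ generalizing F with
  | nil =>
    intro x y l₂
    simp only [List.nil_append, se_cons]
    have e : se (fun z l' => F z ((x + y) :: l')) l₂ =
        se (fun z l' => F z (x :: l')) l₂ + se (fun z l' => F z (y :: l')) l₂ := by
      rw [← se_add]
      congr 1
      ext z l'
      exact h2 z [] x y l'
    rw [e, h1]; ring
  | cons w l₁ ih =>
    intro x y l₂
    simp only [List.cons_append, se_cons]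
    rw [h2 w l₁ x y l₂, ih (F := fun z l' => F z (w :: l')) (fun x y l => h1 x y _)
      (fun z => (h2 z).cons w) x y l₂]
    ring

lemma pfk_addv {V : Type*} [Add V] {a : V → V → R} (h1 : ∀ x y z, a (x + y) z = a x z + a y z)
    (h2 : ∀ x y z, a z (x + y) = a z x + a z y) (k : ℕ) : Addv (pfk a k) := by
  induction k with
  | zero =>
    intro l₁ x y l₂
    cases l₁ <;> simp
  | succ k ih =>
    intro l₁ x y l₂
    cases l₁ with
    | nil =>
      simp only [List.nil_append, pfk_succ_cons]
      rw [← se_add]
      congr 1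
      ext z l'
      rw [h1]; ring
    | cons w l₁ =>
      simp only [List.cons_append, pfk_succ_cons]
      refine se_addv (F := fun y l' => a w y * pfk a k l') (fun x y l => ?_)
        (fun z l₁ x y l₂ => ?_) l₁ x y l₂
      · rw [h2]; ring
      · simp only [ih l₁ x y l₂]
        ring

lemma mix {V κ : Type*} [Add V] {G : List V → R} (hA : Alt G) (hD : Dup G) (hV : Addv G)
    (x y : κ → V) (L : List κ) (T : List V) (hT : ∀ i ∈ L, y i ∈ T) :
    G (L.map (fun i => x i + y i) ++ T) = G (L.map x ++ T) := by
  induction L generalizing G with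
  | nil => rfl
  | cons i L ih =>
    rw [List.map_cons, List.cons_append, List.map_cons, List.cons_append]
    have h1 := hV [] (x i) (y i) (L.map (fun i => x i + y i) ++ T)
    rw [List.nil_append, List.nil_append, List.nil_append] at h1
    rw [h1, hA.dup hD (l := y i :: (L.map (fun i => x i + y i) ++ T)) (by
      rw [List.nodup_cons]
      intro h
      exact h.1 (List.mem_append_right _ (hT i List.mem_cons_self))), add_zero]
    exact ih (G := fun l => G (x i :: l)) (hA.cons _) (hD.cons _) (hV.cons _)
      (fun j hj => hT j (List.mem_cons_of_mem _ hj))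

lemma pfk_neg {ι : Type*} (a : ι → ι → R) (k : ℕ) (l : List ι) :
    pfk (fun x y => - a x y) k l = (-1) ^ k * pfk a k l := by
  induction k generalizing l with
  | zero => cases l <;> simp
  | succ k ih =>
    cases l with
    | nil => simp
    | cons x l =>
      rw [pfk_succ_cons, pfk_succ_cons, ← se_mul_left]
      congr 1
      ext z l'
      rw [ih]; ring

/-- the form `A ⊕ -A` -/
def dbl {n : ℕ} (A : Matrix (Fin n) (Fin n) R) (v w : Fin n ⊕ Fin n → R) : R :=
  ∑ i, ∑ j, A i j * (v (Sum.inl i) * w (Sum.inl j) - v (Sum.inr i) * w (Sum.inr j))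

/-- **Cayley's theorem** -/
theorem pf_sq {k : ℕ} {A : Matrix (Fin (2 * k)) (Fin (2 * k)) R} (hA : IsAlt A) :
    pf k A ^ 2 = A.det := by
  classical
  set a := dbl A with ha
  set e : Fin (2 * k) → (Fin (2 * k) ⊕ Fin (2 * k) → R) := fun i => Pi.single (Sum.inl i) 1 with he
  set e' : Fin (2 * k) → (Fin (2 * k) ⊕ Fin (2 * k) → R) := fun i => Pi.single (Sum.inr i) 1 with he'
  have h1 : ∀ x y z, a (x + y) z = a x z + a y z := by
    intro x y z
    simp only [ha, dbl, Pi.add_apply]
    rw [← Finset.sum_add_distrib]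
    refine Finset.sum_congr rfl fun i _ => ?_
    rw [← Finset.sum_add_distrib]
    refine Finset.sum_congr rfl fun j _ => ?_
    ring
  have h2 : ∀ x y z, a z (x + y) = a z x + a z y := by
    intro x y z
    simp only [ha, dbl, Pi.add_apply]
    rw [← Finset.sum_add_distrib]
    refine Finset.sum_congr rfl fun i _ => ?_
    rw [← Finset.sum_add_distrib]
    refine Finset.sum_congr rfl fun j _ => ?_
    ring
  have hskew : ∀ x y, a x y = - a y x := by
    intro x y
    simp only [ha, dbl]
    rw [Finset.sum_comm, ← Finset.sum_neg_distrib]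
    refine Finset.sum_congr rfl fun i _ => ?_
    rw [← Finset.sum_neg_distrib]
    refine Finset.sum_congr rfl fun j _ => ?_
    rw [hA.1 j i]
    ring
  have hself : ∀ x, a x x = 0 := by
    intro x
    simp only [ha, dbl]
    set F : Fin (2 * k) → Fin (2 * k) → R := fun i j =>
      A i j * (x (Sum.inl i) * x (Sum.inl j) - x (Sum.inr i) * x (Sum.inr j)) with hF
    have hF1 : ∀ i j, F i j = - F j i := by
      intro i j
      simp only [hF]
      rw [hA.1 i j]
      ring
    have hF2 : ∀ i, F i i = 0 := fun i => by simp only [hF]; rw [hA.2 i, zero_mul]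
    have h3 : ∀ S : Finset (Fin (2 * k)), ∑ i ∈ S, ∑ j ∈ S, F i j = 0 := by
      intro S
      induction S using Finset.induction_on with
      | empty => simp
      | insert b S hb ih =>
        rw [Finset.sum_insert hb, Finset.sum_insert hb, hF2, zero_add]
        have h4 : ∑ i ∈ S, ∑ j ∈ insert b S, F i j = ∑ i ∈ S, F i b + ∑ i ∈ S, ∑ j ∈ S, F i j := by
          rw [← Finset.sum_add_distrib]
          exact Finset.sum_congr rfl fun i _ => Finset.sum_insert hb
        rw [h4, ih, add_zero, ← Finset.sum_add_distrib]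
        exact Finset.sum_eq_zero fun i _ => by rw [hF1 b i]; ring
    exact h3 Finset.univ
  have hee : ∀ i j, a (e i) (e j) = A i j := by
    intro i j
    simp only [ha, dbl, he]
    rw [Finset.sum_eq_single i, Finset.sum_eq_single j]
    · simp
    · intro j' _ hj'
      simp [hj']
    · simp
    · intro i' _ hi'
      refine Finset.sum_eq_zero fun j' _ => ?_
      simp [hi']
    · simp
  have hee' : ∀ i j, a (e i) (e' j) = 0 := by
    intro i j
    simp only [ha, dbl, he, he']
    refine Finset.sum_eq_zero fun i' _ => Finset.sum_eq_zero fun j' _ => ?_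
    simp
  have he'e' : ∀ i j, a (e' i) (e' j) = - A i j := by
    intro i j
    simp only [ha, dbl, he']
    rw [Finset.sum_eq_single i, Finset.sum_eq_single j]
    · simp
    · intro j' _ hj'
      simp [hj']
    · simp
    · intro i' _ hi'
      refine Finset.sum_eq_zero fun j' _ => ?_
      simp [hi']
    · simp
  have he'e : ∀ i j, a (e' i) (e j) = 0 := fun i j => by rw [hskew, hee', neg_zero]
  -- first computation
  have c1 : pfk a (2 * k) (List.ofFn (fun i => e i + e' i) ++ List.ofFn e') =
      (-1) ^ ((2 * k).choose 2) * A.det := by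
    rw [pfk_det a (2 * k) (fun i => e i + e' i) e' (fun i i' => by
      rw [h1, h2, h2, hee, hee', he'e, he'e']; ring)]
    congr 1
    have h3 : (Matrix.of fun i j => a (e i + e' i) (e' j)) = - A := by
      ext i j
      rw [Matrix.of_apply, h1, hee', he'e', zero_add, Matrix.neg_apply]
    rw [h3, Matrix.det_neg, Fintype.card_fin, pow_mul]
    norm_num
  -- second computation
  have c2 : pfk a (2 * k) (List.ofFn (fun i => e i + e' i) ++ List.ofFn e') =
      pf k A * ((-1) ^ k * pf k A) := by
    rw [List.ofFn_eq_map (f := fun i => e i + e' i), mix (pfk_alt hskew _) (pfk_dup hself _)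
      (pfk_addv h1 h2 _) e e' _ _ (fun i _ => List.mem_ofFn.2 ⟨i, rfl⟩), ← List.ofFn_eq_map]
    have h3 := pfk_append a k k (List.ofFn e) (List.ofFn e') (by
      intro x hx y hy
      obtain ⟨i, rfl⟩ := List.mem_ofFn.1 hx
      obtain ⟨j, rfl⟩ := List.mem_ofFn.1 hy
      exact hee' i j) (by rw [List.length_ofFn])
    have h3' : pfk a (2 * k) (List.ofFn e ++ List.ofFn e') =
        pfk a (k + k) (List.ofFn e ++ List.ofFn e') := congrArg (fun t => pfk a t _) (two_mul k)
    rw [h3', h3, ← pf_eq_pfk, ← pf_eq_pfk]
    congr 1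
    · congr 1
      ext i j
      exact hee i j
    · have h4 : (Matrix.of fun i j => a (e' i) (e' j)) = Matrix.of fun i j => (fun x y => - A x y) i j := by
        ext i j
        exact he'e' i j
      rw [h4]
      have h5 := pf_eq_pfk (fun x y => - A x y) k (id : Fin (2 * k) → Fin (2 * k))
      simp only [id] at h5
      rw [h5, pfk_neg, ← pf_eq_pfk_id]
  have hch : ((-1 : R)) ^ ((2 * k).choose 2) = (-1) ^ k := by
    have h3 : (2 * k).choose 2 = k * (2 * k - 1) := by
      rw [Nat.choose_two_right, mul_assoc, Nat.mul_div_cancel_left _ (by norm_num)]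
    rw [h3]
    rcases k with _ | k
    · simp
    · have h4 : (k + 1) * (2 * (k + 1) - 1) = (k + 1) + 2 * (k * (k + 1)) := by
        have : 2 * (k + 1) - 1 = 2 * k + 1 := by omega
        rw [this]; ring
      rw [h4, pow_add, pow_mul]
      norm_num
  rw [c1, hch] at c2
  have h6 : ((-1 : R)) ^ k * (-1) ^ k = 1 := by
    rw [← mul_pow]; norm_num
  calc pf k A ^ 2 = (-1) ^ k * (pf k A * ((-1) ^ k * pf k A)) := by
        rw [show (-1 : R) ^ k * (pf k A * ((-1) ^ k * pf k A)) = ((-1) ^ k * (-1) ^ k) * pf k A ^ 2 by ring,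
          h6, one_mul]
    _ = (-1) ^ k * ((-1) ^ k * A.det) := by rw [← c2]
    _ = A.det := by rw [← mul_assoc, h6, one_mul]

end cayley

end Pool.PF
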