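import Mathlib
import Pool.Agent.PF.Matrix

/-!
# Convergence on a grid, and degrees of Pfaffians (MP_381749_lc, border version)
-/

set_option autoImplicit false

namespace Pool.PF

open MvPolynomial Filter Topology

section grid
variable {K : Type*} [Field K] [CharZero K] {σ : Type*} [Fintype σ]

/-- every coefficient of a polynomial of degree at most `d` in each variable is a fixed linear
combination of its values at the points with coordinates `0, ..., d` -/
theorem exists_coeff_eq_sum [DecidableEq σ] (d : ℕ) (u : σ →₀ ℕ) : ∃ c : (σ → Fin (d + 1)) → K,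
    ∀ P : MvPolynomial σ K, (∀ v, P.degreeOf v ≤ d) →
      coeff u P = ∑ M : σ → Fin (d + 1), c M * eval (fun v => ((M v : ℕ) : K)) P := by
  set V : Submodule K (MvPolynomial σ K) := restrictDegree σ K d with hV
  set ev : V →ₗ[K] ((σ → Fin (d + 1)) → K) := LinearMap.pi fun M =>
    ((aeval (R := K) (S₁ := K) fun v => ((M v : ℕ) : K)).toLinearMap).comp V.subtype with hev
  have hevapp : ∀ (P : V) (M), ev P M = eval (fun v => ((M v : ℕ) : K)) P.1 := fun P M => rfl
  have hmem : ∀ P : MvPolynomial σ K, (∀ v, P.degreeOf v ≤ d) → P ∈ V := by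
    intro P hP
    rw [hV, mem_restrictDegree]
    intro s hs i
    exact (degreeOf_le_iff.1 (hP i)) s hs
  have hinj : Function.Injective ev := by
    rw [← LinearMap.ker_eq_bot, Submodule.eq_bot_iff]
    intro P hP
    have h0 : P.1 = 0 := by
      apply eq_zero_of_eval_zero_at_prod_finset _
        (fun _ => (Finset.range (d + 1)).map ⟨fun x : ℕ => (x : K), Nat.cast_injective⟩)
      · intro v
        rw [Finset.card_map, Finset.card_range]
        refine Nat.lt_succ_of_le (degreeOf_le_iff.2 fun s hs => ?_)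
        exact ((mem_restrictDegree σ P.1 d).1 P.2) s hs v
      · intro x hx
        have hx' : ∀ v, ∃ k : Fin (d + 1), ((k : ℕ) : K) = x v := by
          intro v
          have := hx v
          simp only [Finset.mem_map, Finset.mem_range, Function.Embedding.coeFn_mk] at this
          obtain ⟨k, hk, e⟩ := this
          exact ⟨⟨k, hk⟩, e⟩
        choose k hk using hx'
        have h1 := congrFun (LinearMap.mem_ker.1 hP) k
        rw [hevapp] at h1
        have h2 : (fun v => ((k v : ℕ) : K)) = x := funext hk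
        rw [h2] at h1
        exact h1
    exact Subtype.ext h0
  obtain ⟨g, hg⟩ := LinearMap.exists_leftInverse_of_injective ev (LinearMap.ker_eq_bot.2 hinj)
  set L : ((σ → Fin (d + 1)) → K) →ₗ[K] K := ((lcoeff K u).comp V.subtype).comp g with hL
  refine ⟨fun M => L (Pi.single M 1), fun P hP => ?_⟩
  have h1 : g (ev ⟨P, hmem P hP⟩) = ⟨P, hmem P hP⟩ := by
    have := LinearMap.congr_fun hg ⟨P, hmem P hP⟩
    exact this
  have h2 : L (ev ⟨P, hmem P hP⟩) = coeff u P := by
    rw [hL, LinearMap.comp_apply, h1]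
    rfl
  rw [← h2]
  conv_lhs => rw [pi_eq_sum_univ (ev ⟨P, hmem P hP⟩), map_sum]
  refine Finset.sum_congr rfl fun M _ => ?_
  rw [map_smul, smul_eq_mul, mul_comm, hevapp]
  congr 2
  funext M'
  rw [Pi.single_apply]
  simp only [eq_comm]

end grid

/-- **convergence on the grid implies convergence of the coefficients** -/
theorem grid_tendsto {K : Type*} [NormedField K] [CharZero K] {σ : Type*} [Fintype σ] (d : ℕ)
    (F : ℕ → MvPolynomial σ K) (G : MvPolynomial σ K) (hF : ∀ j v, (F j).degreeOf v ≤ d)
    (hG : ∀ v, G.degreeOf v ≤ d)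
    (h : ∀ M : σ → ℕ, (∀ v, M v ≤ d) → Tendsto (fun j => eval (fun v => (M v : K)) (F j)) atTop
      (𝓝 (eval (fun v => (M v : K)) G))) :
    ∀ u, Tendsto (fun j => coeff u (F j)) atTop (𝓝 (coeff u G)) := by
  classical
  intro u
  obtain ⟨c, hc⟩ := exists_coeff_eq_sum (K := K) (σ := σ) d u
  rw [hc G hG]
  have h1 : (fun j => coeff u (F j)) =
      fun j => ∑ M : σ → Fin (d + 1), c M * eval (fun v => ((M v : ℕ) : K)) (F j) :=
    funext fun j => hc (F j) (hF j)
  rw [h1]
  refine tendsto_finsetSum _ fun M _ => ?_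
  exact (h (fun v => (M v : ℕ)) (fun v => Nat.lt_succ_iff.1 (M v).2)).const_mul (c M)

section degrees
variable {K : Type*} [CommRing K] {σ : Type*}

/-- degree of a Pfaffian -/
theorem totalDegree_pf_le (d k : ℕ) (A : Matrix (Fin (2 * k)) (Fin (2 * k)) (MvPolynomial σ K))
    (hA : ∀ i j, (A i j).totalDegree ≤ d) : (pf k A).totalDegree ≤ k * d := by
  induction k with
  | zero =>
    rw [pf_zero, totalDegree_one]
    exact Nat.zero_le _
  | succ k ih =>
    rw [pf_succ]
    refine (totalDegree_finsetSum _ _).trans (Finset.sup_le fun j _ => ?_)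
    refine (totalDegree_mul _ _).trans ?_
    have h1 : ((-1 : MvPolynomial σ K) ^ (j : ℕ) * A 0 j.succ).totalDegree ≤ d := by
      rcases neg_one_pow_eq_or (MvPolynomial σ K) (j : ℕ) with h | h
      · rw [h, one_mul]; exact hA _ _
      · rw [h, neg_one_mul, totalDegree_neg]; exact hA _ _
    have h2 := ih (A.submatrix (fun i => (j.succAbove i).succ) (fun i => (j.succAbove i).succ))
      (fun i i' => hA _ _)
    rw [add_mul, one_mul, add_comm (k * d)]
    exact Nat.add_le_add h1 h2

theorem degreeOf_mul_pf_le {d k m nu : ℕ} (hkm : k ≤ m)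
    (A : Matrix (Fin (2 * k)) (Fin (2 * k)) (MvPolynomial σ K))
    (hA : ∀ i j, (A i j).totalDegree ≤ d) (P : MvPolynomial σ K) (hP : P.totalDegree ≤ nu) (v : σ) :
    (P * pf k A).degreeOf v ≤ m * d + nu := by
  refine (degreeOf_le_totalDegree _ _).trans ((totalDegree_mul _ _).trans ?_)
  have := (totalDegree_pf_le d k A hA).trans (Nat.mul_le_mul_right d hkm)
  omega

/-- evaluation of a Pfaffian -/
theorem eval_pf (k : ℕ) (A : Matrix (Fin (2 * k)) (Fin (2 * k)) (MvPolynomial σ K)) (x : σ → K) :
    eval x (pf k A) = pf k (A.map (eval x)) := map_pf (eval x) k A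

end degrees

end Pool.PF
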